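import Mathlib
import Pool.Agent.Helper606_LC.Pr2

/-!
# Fields of values and wild primes

Let `G` be a finite group and `χ` a nonlinear irreducible complex character of `G` of conductor `n`
such that at most six primes dividing `n` are wild. Some proper subgroup `H` of `G` has a linear
character `μ`, a constituent of the restriction of `χ` to `H`, whose field of values contains that
of `χ` and has degree at most `χ(1)` over it. A prime is wild unless `G` is `p`-solvable or the
elements of large `p`-power order of the Sylow `p`-subgroups are contained in cyclic subgroups or are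
not shared by different Sylow `p`-subgroups.
-/

set_option autoImplicit false

namespace Pool.Agent.Results.MP_79850a_al.SixWildPrimes

open Pool.Agent.Helper606_LC Pool.Agent.W446.AS

/-- `G` is `p`-solvable: there is a series `M 0 = 1, …, M r = G` of normal subgroups of `G`, each
contained in the next, in which every index is a power of `p` or prime to `p`. -/
def PSolvable (p : ℕ) (G : Type) [Group G] : Prop :=
  ∃ (r : ℕ) (M : ℕ → Subgroup G), M 0 = ⊥ ∧ M r = ⊤ ∧ (∀ i, (M i).Normal) ∧
    (∀ i, M i ≤ M (i + 1)) ∧
    ∀ i, (∃ k, (M i).relIndex (M (i + 1)) = p ^ k) ∨ ¬ p ∣ (M i).relIndex (M (i + 1))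

/-- A prime `p` is tame for `G` and the exponent `a` if `G` is `p`-solvable, or if for every Sylow
`p`-subgroup `P` of `G` the elements of `P` of order divisible by `p ^ a` lie in a cyclic subgroup,
or if every Sylow `p`-subgroup containing one of these elements contains all of them. -/
def Tame (p a : ℕ) (G : Type) [Group G] : Prop :=
  PSolvable p G ∨
    (∀ P : Sylow p G, ∃ C : Subgroup G, IsCyclic C ∧ ∀ x ∈ P, p ^ a ∣ orderOf x → x ∈ C) ∨
    ∀ P P' : Sylow p G, (∃ x ∈ P, x ∈ P' ∧ p ^ a ∣ orderOf x) →
      ∀ y ∈ P, p ^ a ∣ orderOf y → y ∈ P'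

open Classical in
/-- The wild primes dividing `d`. -/
noncomputable def wildPrimes (G : Type) [Group G] (d : ℕ) : Finset ℕ :=
  d.primeFactors.filter fun p => ¬ Tame p (d.factorization p) G

/-- The cyclotomic field of the roots of unity of order dividing `m`. -/
noncomputable def Cyc (m : ℕ) : IntermediateField ℚ ℂ :=
  IntermediateField.adjoin ℚ {z : ℂ | z ^ m = 1}

/-- The field generated over `ℚ` by the values of `χ`. -/
noncomputable def ValField {G : Type} (χ : G → ℂ) : IntermediateField ℚ ℂ :=
  IntermediateField.adjoin ℚ (Set.range χ)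

/-- `n` is the conductor of `χ`: the least positive integer such that the field of values of `χ`
lies in the cyclotomic field of the roots of unity of order dividing `n`. -/
def IsCond {G : Type} (χ : G → ℂ) (n : ℕ) : Prop :=
  0 < n ∧ ValField χ ≤ Cyc n ∧ ∀ m : ℕ, 0 < m → ValField χ ≤ Cyc m → n ≤ m

/-- Some proper subgroup `H` of `G` has a linear character `μ`, a constituent of the restriction of
the character of `V` to `H`, whose field of values contains the field of values of the character of
`V` and has degree at most `V(1)` over it. -/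
def ProperLinear (G : Type) [Group G] (V : FDRep ℂ G) : Prop :=
  ∃ (H : Subgroup G) (μ : H →* ℂˣ), H ≠ ⊤ ∧
    (∑ᶠ h : H, V.character (h : G) * (((μ h)⁻¹ : ℂˣ) : ℂ)) ≠ 0 ∧
    ValField V.character ≤ ValField (fun h : H => ((μ h : ℂˣ) : ℂ)) ∧
    IntermediateField.relfinrank (ValField V.character)
      (ValField (fun h : H => ((μ h : ℂˣ) : ℂ))) ≤ Module.finrank ℂ V

lemma tm_of_tame {p a : ℕ} (hp : p.Prime) {G : Type} [Group G] [Finite G] (h : Tame p a G) :
    Tm3 p a G := by
  rcases h with ⟨r, M, h0, hr, hn, hle, hst⟩ | h | h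
  · exact Or.inr (psp_of_series r M h0 hr hn hle hp hst)
  · left; left
    intro Q hQ
    obtain ⟨P, hP⟩ := hQ.exists_le_sylow
    obtain ⟨C, hC, hPC⟩ := h P
    exact ⟨C, hC, fun x hx => hPC x (hP hx)⟩
  · left; right
    intro P P' x hx hx' hxa
    exact h P P' ⟨x, hx, hx', hxa⟩

lemma val_le_iff {G : Type} (χ : G → ℂ) (m : ℕ) : ValField χ ≤ Cyc m ↔ ∀ g, χ g ∈ Cyc m := by
  rw [ValField, IntermediateField.adjoin_le_iff, Set.range_subset_iff]
  rfl

/-- The statement for characters whose conductor has at most six wild prime divisors. -/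
theorem result (G : Type) [Group G] [Fintype G] (V : FDRep ℂ G) (hV : CategoryTheory.Simple V)
    (h1 : 1 < Module.finrank ℂ V) (n : ℕ) (hn : IsCond V.character n)
    (hw : (wildPrimes G n).card ≤ 6) : ProperLinear G V := by
  classical
  have h := (val_le_iff _ n).mp hn.2.1
  have hirr := irr_of_simple V hV
  have hmin : ∀ m' : ℕ, 0 < m' → (∀ g, V.character g ∈ Cyc m') → n ≤ m' :=
    fun m' h1 h2 => hn.2.2 m' h1 ((val_le_iff _ m').mpr h2)
  obtain ⟨e, he, hco, hord, hE, hlast⟩ := missed_cond3 hirr hn.1 h hmin (dvd_refl n) (fun _ => 1)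
    (fun _ _ => Nat.one_pos)
  have hsub : wildQ G n.factorization n.primeFactors ⊆ wildPrimes G n := by
    intro p hp
    obtain ⟨hp1, hp2⟩ := Finset.mem_filter.mp hp
    exact Finset.mem_filter.mpr
      ⟨hp1, fun h => hp2 (tm_of_tame (Nat.prime_of_mem_primeFactors hp1) h)⟩
  have hed : e = n := by
    rcases hlast with h1 | h1
    · exact h1
    · simp only [Finset.sum_const, smul_eq_mul, mul_one] at h1
      have h2 := Finset.card_le_card hsub
      have hd0 : 0 < n := hn.1
      have h3 : (n / e).primeFactors.card = 0 := by omega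
      rw [Finset.card_eq_zero, Nat.primeFactors_eq_empty] at h3
      obtain ⟨c, hc⟩ := he
      have he0 : 0 < e := by
        rcases Nat.eq_zero_or_pos e with h4 | h4
        · rw [h4, zero_mul] at hc; omega
        · exact h4
      have h4 : n / e = c := by rw [hc, Nat.mul_div_cancel_left _ he0]
      rw [h4] at h3
      rcases h3 with h5 | h5
      · rw [h5, mul_zero] at hc; omega
      · rw [hc, h5, mul_one]
  rw [hed] at hord
  exact proper_of_ord (irred_of_simple V hV) hirr h1 hn.1 h hord

end Pool.Agent.Results.MP_79850a_al.SixWildPrimes
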